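import Mathlib
import Pool.Agent.Helper38_LDP.Stmts

/-! Squad LDP: module BEZ (Bezout bound). -/

namespace Pool.Agent.LDP.H46

open Polynomial
open scoped Polynomial.Bivariate

theorem two_dimV (ρ : ℕ) (a b : ℕ) (h : ρ * b ≤ a + 1) :
    2 * dimV ρ a b + ρ * b * (b + 1) = 2 * (b + 1) * (a + 1) := by
  induction b with
  | zero => simp [dimV]
  | succ b ih =>
    have h1 : ρ * b ≤ a + 1 := le_trans (Nat.mul_le_mul_left _ (Nat.le_succ b)) h
    have h2 := ih h1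
    have h3 : dimV ρ a (b + 1) = dimV ρ a b + (a + 1 - ρ * (b + 1)) := by
      unfold dimV
      rw [Finset.sum_range_succ]
    rw [h3]
    obtain ⟨c, hc⟩ := Nat.exists_eq_add_of_le h
    rw [hc, Nat.add_sub_cancel_left]
    rw [hc] at h2
    nlinarith [h2]

theorem mixed (ρ A B a₁ b₁ a₂ b₂ : ℕ) (h0 : ρ * B ≤ A + 1) (h1 : ρ * (B + b₁) ≤ A + a₁ + 1)
    (h2 : ρ * (B + b₂) ≤ A + a₂ + 1) (h3 : ρ * (B + b₁ + b₂) ≤ A + a₁ + a₂ + 1) :
    dimV ρ (A + a₁ + a₂) (B + b₁ + b₂) + dimV ρ A B + ρ * b₁ * b₂ =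
      dimV ρ (A + a₁) (B + b₁) + dimV ρ (A + a₂) (B + b₂) + a₁ * b₂ + a₂ * b₁ := by
  have e0 := two_dimV ρ _ _ h0
  have e1 := two_dimV ρ _ _ h1
  have e2 := two_dimV ρ _ _ h2
  have e3 := two_dimV ρ _ _ h3
  nlinarith [e0, e1, e2, e3]

theorem V_mono (ρ : ℕ) (L : Type) [CommRing L] {a b a' b' : ℕ} (ha : a ≤ a') (hb : b ≤ b') :
    V ρ L a b ≤ V ρ L a' b' := by
  intro g hg i j hij
  obtain ⟨h1, h2⟩ := hg i j hij
  exact ⟨h1.trans hb, h2.trans ha⟩

theorem exists_V (ρ : ℕ) (L : Type) [CommRing L] (G : L[X][Y]) : ∃ n, G ∈ V ρ L n n := by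
  refine ⟨(1 + ρ) * (G.natDegree + ∑ j ∈ G.support, (G.coeff j).natDegree), ?_⟩
  intro i j hij
  have hj : G.coeff j ≠ 0 := by
    intro h
    rw [h] at hij
    simp at hij
  have h1 : j ≤ G.natDegree := le_natDegree_of_ne_zero hj
  have h2 : i ≤ (G.coeff j).natDegree := le_natDegree_of_ne_zero hij
  have h3 : (G.coeff j).natDegree ≤ ∑ j ∈ G.support, (G.coeff j).natDegree :=
    Finset.single_le_sum (f := fun j => (G.coeff j).natDegree) (fun _ _ => Nat.zero_le _)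
      (mem_support_iff.2 hj)
  have h4 : ρ * j ≤ ρ * G.natDegree := Nat.mul_le_mul_left _ h1
  have h5 : (1 + ρ) * (G.natDegree + ∑ j ∈ G.support, (G.coeff j).natDegree) =
      G.natDegree + ρ * G.natDegree + (∑ j ∈ G.support, (G.coeff j).natDegree) +
        ρ * (∑ j ∈ G.support, (G.coeff j).natDegree) := by ring
  rw [h5]
  constructor
  · omega
  · omega

theorem finrank_map_add_le {L E Q : Type*} [Field L] [AddCommGroup E] [Module L E]
    [AddCommGroup Q] [Module L Q] (π : E →ₗ[L] Q) (W S : Submodule L E) [Module.Finite L W]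
    (h1 : S ≤ W) (h2 : S ≤ LinearMap.ker π) :
    Module.finrank L (W.map π) + Module.finrank L S ≤ Module.finrank L W := by
  have h := LinearMap.finrank_range_add_finrank_ker (π.domRestrict W)
  rw [LinearMap.range_domRestrict] at h
  rw [← h]
  apply Nat.add_le_add_left
  rw [← (Submodule.comapSubtypeEquivOfLe h1).finrank_eq]
  apply Submodule.finrank_mono
  intro x hx
  exact h2 hx

theorem finrank_image (ρ A B a₁ b₁ a₂ b₂ : ℕ) (L : Type) [Field L] (f g : L[X][Y])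
    (hDim : DimStmt) (hMul : MulStmt) (hg : g ∈ V ρ L a₂ b₂) (hf : f ∈ V ρ L a₁ b₁)
    (hex : ∀ (h : L[X][Y]) (A B : ℕ), h ≠ 0 → f * h ∈ V ρ L A B →
      a₁ ≤ A ∧ b₁ ≤ B ∧ h ∈ V ρ L (A - a₁) (B - b₁))
    (hirr : Irreducible f) (hfg : ¬ f ∣ g) (h0 : ρ * B ≤ A + 1) (h1 : ρ * (B + b₁) ≤ A + a₁ + 1)
    (h2 : ρ * (B + b₂) ≤ A + a₂ + 1) (h3 : ρ * (B + b₁ + b₂) ≤ A + a₁ + a₂ + 1) :
    Module.finrank L ((V ρ L (A + a₁ + a₂) (B + b₁ + b₂)).map
      (Ideal.Quotient.mkₐ L (Ideal.span {f, g})).toLinearMap) + ρ * b₁ * b₂ ≤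
        a₁ * b₂ + a₂ * b₁ := by
  have hprime : Prime f := hirr.prime
  have hf0 : f ≠ 0 := hirr.ne_zero
  have hg0 : g ≠ 0 := fun h => hfg (h ▸ dvd_zero f)
  set π : L[X][Y] →ₗ[L] (L[X][Y] ⧸ Ideal.span {f, g}) :=
    (Ideal.Quotient.mkₐ L (Ideal.span {f, g})).toLinearMap with hπ
  set W := V ρ L (A + a₁ + a₂) (B + b₁ + b₂) with hW
  set U₁ := (V ρ L (A + a₂) (B + b₂)).map (LinearMap.mulLeft L f) with hU₁
  set U₂ := (V ρ L (A + a₁) (B + b₁)).map (LinearMap.mulLeft L g) with hU₂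
  set U₃ := (V ρ L A B).map (LinearMap.mulLeft L (f * g)) with hU₃
  have injm : ∀ q : L[X][Y], q ≠ 0 → Function.Injective (LinearMap.mulLeft L q) := by
    intro q hq
    exact fun x y h => mul_left_cancel₀ hq h
  have fin : ∀ a b, Module.Finite L (V ρ L a b) := fun a b => (hDim ρ a b L).1
  have dm : ∀ a b, Module.finrank L (V ρ L a b) = dimV ρ a b := fun a b => (hDim ρ a b L).2
  have dmap : ∀ (q : L[X][Y]) (_ : q ≠ 0) (a b : ℕ),
      Module.finrank L ((V ρ L a b).map (LinearMap.mulLeft L q)) = dimV ρ a b := by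
    intro q hq a b
    rw [← dm a b]
    exact (Submodule.equivMapOfInjective _ (injm q hq) _).finrank_eq.symm
  have i0 : Module.Finite L W := fin (A + a₁ + a₂) (B + b₁ + b₂)
  have i1 := fin (A + a₁) (B + b₁)
  have i2 := fin (A + a₂) (B + b₂)
  have i3 := fin A B
  have hsub1 : U₁ ≤ W := by
    rintro x ⟨u, hu, rfl⟩
    have := hMul ρ a₁ b₁ (A + a₂) (B + b₂) L f u hf hu
    have e1 : a₁ + (A + a₂) = A + a₁ + a₂ := by ring
    have e2 : b₁ + (B + b₂) = B + b₁ + b₂ := by ring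
    rw [e1, e2] at this
    exact this
  have hsub2 : U₂ ≤ W := by
    rintro x ⟨u, hu, rfl⟩
    have := hMul ρ a₂ b₂ (A + a₁) (B + b₁) L g u hg hu
    have e1 : a₂ + (A + a₁) = A + a₁ + a₂ := by ring
    have e2 : b₂ + (B + b₁) = B + b₁ + b₂ := by ring
    rw [e1, e2] at this
    exact this
  have hinf : U₁ ⊓ U₂ ≤ U₃ := by
    rintro x ⟨⟨u, hu, rfl⟩, ⟨w, hw, hw2⟩⟩
    have hw2' : g * w = f * u := hw2
    have hd : f ∣ g * w := ⟨u, hw2'⟩
    rcases hprime.dvd_or_dvd hd with h | ⟨v, rfl⟩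
    · exact absurd h hfg
    · have huv : u = g * v := by
        apply mul_left_cancel₀ hf0
        rw [← hw2']
        ring
      by_cases hv : v = 0
      · subst hv
        simp [huv]
      · have hw' : f * v ∈ V ρ L (A + a₁) (B + b₁) := hw
        obtain ⟨_, _, h5⟩ := hex v (A + a₁) (B + b₁) hv hw'
        rw [Nat.add_sub_cancel, Nat.add_sub_cancel] at h5
        refine ⟨v, h5, ?_⟩
        show f * g * v = f * u
        rw [huv]
        ring
  have hker : U₁ ⊔ U₂ ≤ LinearMap.ker π := by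
    apply sup_le
    · rintro x ⟨u, _, rfl⟩
      show Ideal.Quotient.mk (Ideal.span {f, g}) (f * u) = 0
      rw [Ideal.Quotient.eq_zero_iff_mem]
      exact Ideal.mul_mem_right _ _ (Ideal.subset_span (by simp))
    · rintro x ⟨u, _, rfl⟩
      show Ideal.Quotient.mk (Ideal.span {f, g}) (g * u) = 0
      rw [Ideal.Quotient.eq_zero_iff_mem]
      exact Ideal.mul_mem_right _ _ (Ideal.subset_span (by simp))
  have e1 : Module.finrank L (W.map π) + Module.finrank L (U₁ ⊔ U₂ : Submodule L L[X][Y]) ≤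
      dimV ρ (A + a₁ + a₂) (B + b₁ + b₂) := by
    rw [← dm]
    exact finrank_map_add_le π W (U₁ ⊔ U₂) (sup_le hsub1 hsub2) hker
  have e3 := Submodule.finrank_sup_add_finrank_inf_eq U₁ U₂
  have e4 : Module.finrank L (U₁ ⊓ U₂ : Submodule L L[X][Y]) ≤ dimV ρ A B := by
    rw [← dmap (f * g) (mul_ne_zero hf0 hg0) A B]
    exact Submodule.finrank_mono hinf
  rw [dmap f hf0, dmap g hg0] at e3
  have e5 := mixed ρ A B a₁ b₁ a₂ b₂ h0 h1 h2 h3
  omega

theorem arith (ρ N a b a₁ b₁ a₂ b₂ : ℕ) (h7 : N + ρ * b * b₂ = a * b₂ + a₂ * b) (h1 : a ≤ a₁)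
    (h2 : b ≤ b₁) (h3 : ρ * b₂ ≤ a₂) : N + ρ * b₁ * b₂ ≤ a₁ * b₂ + a₂ * b₁ := by
  obtain ⟨x, rfl⟩ := Nat.exists_eq_add_of_le h1
  obtain ⟨y, rfl⟩ := Nat.exists_eq_add_of_le h2
  obtain ⟨z, rfl⟩ := Nat.exists_eq_add_of_le h3
  nlinarith [h7, Nat.zero_le (x * b₂), Nat.zero_le (y * z)]

theorem bez (hDim : DimStmt) (hExa : ExaStmt) (hMul : MulStmt) : BezStmt := by
  intro ρ a₁ b₁ a₂ b₂ L _ f g hρ hab₁ hab₂ hf hg hirr hfg
  obtain ⟨a, b, hfab, hrb, _, hex⟩ := hExa ρ L f hirr.ne_zero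
  obtain ⟨hle1, hle2, _⟩ := hex 1 a₁ b₁ one_ne_zero (by rw [mul_one]; exact hf)
  set N := a * b₂ + a₂ * b - ρ * b * b₂ with hN
  have hbound : ∀ A B : ℕ, B + b + b₂ ≤ A →
      Module.finrank L ((V ρ L (A + a + a₂) (B + b + b₂)).map
        (Ideal.Quotient.mkₐ L (Ideal.span {f, g})).toLinearMap) ≤ N := by
    intro A B hAB
    have hr : ∀ x y : ℕ, x ≤ y → ρ * x ≤ y := by
      intro x y hxy
      calc ρ * x ≤ 1 * x := Nat.mul_le_mul_right _ hρ
        _ ≤ y := by omega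
    have := finrank_image ρ A B a b a₂ b₂ L f g hDim hMul hg hfab hex hirr hfg
      (hr _ _ (by omega)) (hr _ _ (by omega)) (hr _ _ (by omega)) (hr _ _ (by omega))
    omega
  have hrank : Module.rank L (L[X][Y] ⧸ Ideal.span {f, g}) ≤ N := by
    apply rank_le
    intro s hs
    have hn : ∀ q : L[X][Y] ⧸ Ideal.span {f, g}, ∃ n, ∀ A B, n ≤ A → n ≤ B →
        q ∈ (V ρ L A B).map (Ideal.Quotient.mkₐ L (Ideal.span {f, g})).toLinearMap := by
      intro q
      obtain ⟨G, rfl⟩ := Ideal.Quotient.mk_surjective q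
      obtain ⟨n, hn⟩ := exists_V ρ L G
      exact ⟨n, fun A B hA hB => ⟨G, V_mono ρ L hA hB hn, rfl⟩⟩
    choose n hn using hn
    set m := s.sup n with hm
    set W := (V ρ L ((m + b + b₂) + a + a₂) (m + b + b₂)).map
        (Ideal.Quotient.mkₐ L (Ideal.span {f, g})).toLinearMap with hW
    have hmem : ∀ q ∈ s, q ∈ W := by
      intro q hq
      have h1 : n q ≤ m := Finset.le_sup hq
      exact hn q _ _ (by omega) (by omega)
    have h2 : Module.finrank L W ≤ N := hbound (m + b + b₂) m le_rfl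
    haveI := (hDim ρ ((m + b + b₂) + a + a₂) (m + b + b₂) L).1
    haveI : Module.Finite L W := Module.Finite.map _ _
    have h3 : LinearIndependent L (fun i : s => (⟨i.1, hmem i.1 i.2⟩ : W)) :=
      LinearIndependent.of_comp W.subtype hs
    have h4 := h3.fintype_card_le_finrank
    rw [Fintype.card_coe] at h4
    exact h4.trans h2
  have hfin : Module.Finite L (L[X][Y] ⧸ Ideal.span {f, g}) :=
    Module.rank_lt_aleph0_iff.1 (hrank.trans_lt (Cardinal.natCast_lt_aleph0))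
  refine ⟨hfin, ?_⟩
  have h5 : Module.finrank L (L[X][Y] ⧸ Ideal.span {f, g}) ≤ N :=
    Module.finrank_le_of_rank_le hrank
  have h6 : ρ * b * b₂ ≤ a * b₂ := Nat.mul_le_mul_right _ hrb
  have h7 : N + ρ * b * b₂ = a * b₂ + a₂ * b := by
    rw [hN]
    omega
  have h8 : N + ρ * b₁ * b₂ ≤ a₁ * b₂ + a₂ * b₁ := arith ρ N a b a₁ b₁ a₂ b₂ h7 hle1 hle2 hab₂
  omega

end Pool.Agent.LDP.H46
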