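import Mathlib
import Pool.Agent.Helper38_LDP.Stmts

/-! Squad LDP: module CON. -/

namespace Pool.Agent.LDP.H46

open Polynomial
open scoped Polynomial.Bivariate

theorem hilb_eq {σ K Fr : Type} [Field K] [Field Fr] [Algebra K Fr]
    (Q : Ideal (MvPolynomial σ K)) (j : MvPolynomial σ K →ₐ[K] Fr)
    (hj : ∀ h, j h = 0 ↔ h ∈ Q) (u : ℕ) :
    Module.finrank K ((MvPolynomial.homogeneousSubmodule σ K u).map j.toLinearMap) = hilb Q u := by
  unfold hilb
  have hk : (Q.restrictScalars K).comap (MvPolynomial.homogeneousSubmodule σ K u).subtype =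
      LinearMap.ker (j.toLinearMap.domRestrict (MvPolynomial.homogeneousSubmodule σ K u)) := by
    ext x
    exact (hj x.1).symm
  rw [hk, ← LinearMap.range_domRestrict]
  exact ((LinearMap.quotKerEquivRange _).finrank_eq).symm

/-- the evaluation of forms at the point, as an algebra map -/
noncomputable def eps (ρ n : ℕ) (K E : Type) [Field K] [Field E] [Algebra K E] (s t : E) :
    MvPolynomial (Fin (n + 2)) K →ₐ[K] E :=
  { ((evalEvalRingHom s t).comp ((mapRingHom (mapRingHom (algebraMap K E))).comp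
      (res ρ n K).toRingHom)) with
    commutes' := fun a => by
      show (((res ρ n K (algebraMap K _ a)).map (mapRingHom (algebraMap K E))).evalEval s t) = _
      rw [AlgHom.commutes]
      have : (algebraMap K K[X][Y] a) = C (C a) := rfl
      rw [this]
      simp [evalEval] }

theorem eps_apply (ρ n : ℕ) (K E : Type) [Field K] [Field E] [Algebra K E] (s t : E)
    (h : MvPolynomial (Fin (n + 2)) K) : eps ρ n K E s t h = ev s t (res ρ n K h) := rfl

theorem eps_three (ρ n : ℕ) (K E : Type) [Field K] [Field E] [Algebra K E] (s t : E)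
    (i : Fin (n + 2)) (hi : i.1 = 3) : eps ρ n K E s t (MvPolynomial.X i) = 1 := by
  rw [eps_apply]
  have : res ρ n K (MvPolynomial.X i) = 1 := by
    rw [res, MvPolynomial.aeval_X, th, hi]
    simp
  rw [this]
  simp [ev, evalEval]

theorem dvd_finrank {K M : Type} [Field K] [Field M] [Algebra K M] (φ : M)
    (hφ : IsIntegral K φ) (B : Submodule K M) (h : ∀ p : K[X], ∀ b ∈ B, aeval φ p * b ∈ B) :
    (minpoly K φ).natDegree ∣ Module.finrank K B := by
  have hL : ∀ x : IntermediateField.adjoin K {φ}, ∃ p : K[X], aeval φ p = x.1 := by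
    intro x
    have h1 : x.1 ∈ (IntermediateField.adjoin K {φ}).toSubalgebra := x.2
    rw [IntermediateField.adjoin_simple_toSubalgebra_of_isAlgebraic hφ.isAlgebraic,
      Algebra.adjoin_singleton_eq_range_aeval] at h1
    obtain ⟨p, hp⟩ := h1
    exact ⟨p, hp⟩
  let N : Submodule (IntermediateField.adjoin K {φ}) M :=
    { carrier := B
      add_mem' := fun ha hb => B.add_mem ha hb
      zero_mem' := B.zero_mem
      smul_mem' := by
        intro x b hb
        obtain ⟨p, hp⟩ := hL x
        show x.1 * b ∈ B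
        rw [← hp]
        exact h p b hb }
  let e : N ≃ₗ[K] B :=
    { toFun := fun x => ⟨x.1, x.2⟩
      invFun := fun x => ⟨x.1, x.2⟩
      map_add' := fun x y => rfl
      map_smul' := fun a x => rfl
      left_inv := fun x => rfl
      right_inv := fun x => rfl }
  rw [← e.finrank_eq, ← IntermediateField.adjoin.finrank hφ]
  exact ⟨_, (Module.finrank_mul_finrank K (IntermediateField.adjoin K {φ}) N).symm⟩

theorem con (hHil : HilStmt) : ConStmt := by
  intro ρ n k T c K E _ _ _ _ s t P Q F q hρ hn hk hE _ hprim hPh hP hPe hQp hQh hQP hQ hF hFP hFQ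
    hq hqP hqQ
  classical
  set S : ℕ → Submodule K (MvPolynomial (Fin (n + 2)) K) :=
    fun u => MvPolynomial.homogeneousSubmodule (Fin (n + 2)) K u with hS
  have hmulS : ∀ {a b : ℕ} {x y : MvPolynomial (Fin (n + 2)) K}, x ∈ S a → y ∈ S b →
      x * y ∈ S (a + b) := by
    intro a b x y hx hy
    exact MvPolynomial.IsHomogeneous.mul hx hy
  have fin : ∀ u, Module.Finite K (S u) := fun u =>
    Module.Finite.iff_fg.mpr (MvPolynomial.homogeneousSubmodule_fg (σ := Fin (n + 2)) (R := K) u)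
  -- the field of fractions
  let j : MvPolynomial (Fin (n + 2)) K →ₐ[K] FractionRing (MvPolynomial (Fin (n + 2)) K ⧸ Q) :=
    (IsScalarTower.toAlgHom K (MvPolynomial (Fin (n + 2)) K ⧸ Q) _).comp (Ideal.Quotient.mkₐ K Q)
  have hj : ∀ h, j h = 0 ↔ h ∈ Q := by
    intro h
    show algebraMap (MvPolynomial (Fin (n + 2)) K ⧸ Q)
      (FractionRing (MvPolynomial (Fin (n + 2)) K ⧸ Q)) (Ideal.Quotient.mk Q h) = 0 ↔ _
    rw [map_eq_zero_iff _ (IsFractionRing.injective _ _), Ideal.Quotient.eq_zero_iff_mem]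
  set ε := eps ρ n K E s t with hε
  have hεP : ∀ u, ∀ h ∈ S u, (h ∈ P ↔ ε h = 0) := fun u h hh => hPe u h hh
  have h3 : 3 < n + 2 ∨ n = 2 ∨ n < 2 := by omega
  have hi3 : ∃ i3 : Fin (n + 2), i3.1 = 3 := ⟨⟨3, by omega⟩, rfl⟩
  obtain ⟨i3, hi3⟩ := hi3
  have hε3 : ε (MvPolynomial.X i3) = 1 := eps_three ρ n K E s t i3 hi3
  -- Bezout
  have hilF : ∀ u ≥ T, ∀ p ∈ S (u + 2), p ∈ P → ∃ v ∈ S u, p - F * v ∈ Q :=
    (hHil (n + 2) K P Q k (2 * k) 2 T c hQp hQh hPh hQP hQ hP F hF hFP hFQ).2 (by ring)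
  have hjF : j F ≠ 0 := fun h => hFQ ((hj F).1 h)
  set φ := j q / j F with hφ
  have hX : ∀ u, (MvPolynomial.X i3 : MvPolynomial (Fin (n + 2)) K) ^ u ∈ S u := by
    intro u
    have := (MvPolynomial.isHomogeneous_X K i3).pow u
    rw [one_mul] at this
    exact this
  obtain ⟨v0, hv0, hv0'⟩ := hilF T le_rfl (q * MvPolynomial.X i3 ^ T)
    (by rw [add_comm T 2]; exact hmulS hq (hX T)) (P.mul_mem_right _ hqP)
  set y := ε v0 with hy
  have base : ∀ u ≥ T, ∀ v ∈ S u, ∃ v' ∈ S u, φ * j v = j v' ∧ ε v' = y * ε v := by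
    intro u hu v hv
    obtain ⟨v', hv', hv''⟩ := hilF u hu (q * v)
      (by rw [add_comm u 2]; exact hmulS hq hv) (P.mul_mem_right _ hqP)
    refine ⟨v', hv', ?_, ?_⟩
    · have h1 : j (q * v - F * v') = 0 := (hj _).2 hv''
      rw [map_sub, map_mul, map_mul, sub_eq_zero] at h1
      rw [hφ, div_mul_eq_mul_div, h1, mul_div_cancel_left₀ _ hjF]
    · have h2 : F * (v * v0 - v' * MvPolynomial.X i3 ^ T) ∈ Q := by
        have e : F * (v * v0 - v' * MvPolynomial.X i3 ^ T) =
            (q * v - F * v') * MvPolynomial.X i3 ^ T - v * (q * MvPolynomial.X i3 ^ T - F * v0) := by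
          ring
        rw [e]
        exact Q.sub_mem (Q.mul_mem_right _ hv'') (Q.mul_mem_left _ hv0')
      have h3 := (hQp.mem_or_mem h2).resolve_left hFQ
      have h4 : v * v0 - v' * MvPolynomial.X i3 ^ T ∈ S (u + T) :=
        (S (u + T)).sub_mem (hmulS hv hv0) (hmulS hv' (hX T))
      have h5 := (hεP _ _ h4).1 (hQP h3)
      rw [map_sub, map_mul, map_mul, map_pow, hε3, one_pow, mul_one, sub_eq_zero] at h5
      rw [← h5, mul_comm]
  have poly : ∀ (p : K[X]) (u : ℕ), T ≤ u → ∀ v ∈ S u,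
      ∃ w ∈ S u, aeval φ p * j v = j w ∧ ε w = aeval y p * ε v := by
    intro p
    induction p using Polynomial.induction_on with
    | C a =>
      intro u _ v hv
      refine ⟨a • v, (S u).smul_mem a hv, ?_, ?_⟩
      · rw [aeval_C, map_smul, Algebra.smul_def]
      · rw [aeval_C, map_smul, Algebra.smul_def]
    | add p r hp hr =>
      intro u hu v hv
      obtain ⟨w1, h1, h2, h3⟩ := hp u hu v hv
      obtain ⟨w2, h4, h5, h6⟩ := hr u hu v hv
      refine ⟨w1 + w2, (S u).add_mem h1 h4, ?_, ?_⟩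
      · rw [map_add, add_mul, h2, h5, map_add]
      · rw [map_add, h3, h6, map_add, add_mul]
    | monomial m a h =>
      intro u hu v hv
      obtain ⟨w, h1, h2, h3⟩ := h u hu v hv
      obtain ⟨w', h4, h5, h6⟩ := base u hu w h1
      refine ⟨w', h4, ?_, ?_⟩
      · rw [← h5, ← h2, map_mul, map_mul, map_pow, map_pow, aeval_X]
        ring
      · rw [h6, h3, map_mul, map_mul, map_pow, map_pow, aeval_X]
        ring
  -- dimensions
  set B : ℕ → Submodule K (FractionRing (MvPolynomial (Fin (n + 2)) K ⧸ Q)) :=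
    fun u => (S u).map j.toLinearMap with hB
  have hBd : ∀ u, Module.finrank K (B u) = hilb Q u := fun u => hilb_eq Q j hj u
  have hBf : ∀ u, Module.Finite K (B u) := fun u => by
    haveI := fin u
    exact Module.Finite.map _ _
  have zero : ∀ p : K[X], aeval y p = 0 → aeval φ p = 0 := by
    intro p hp
    by_contra hne
    have hsub : (B (T + 2)).map (LinearMap.mulLeft K (aeval φ p)) ≤
        (B T).map (LinearMap.mulLeft K (j F)) := by
      rintro _ ⟨_, ⟨v, hv, rfl⟩, rfl⟩
      obtain ⟨w, h1, h2, h3⟩ := poly p (T + 2) (by omega) v hv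
      rw [hp, zero_mul] at h3
      obtain ⟨z, hz, hz'⟩ := hilF T le_rfl w h1 ((hεP _ _ h1).2 h3)
      refine ⟨j z, ⟨z, hz, rfl⟩, ?_⟩
      have h4 : j (w - F * z) = 0 := (hj _).2 hz'
      rw [map_sub, map_mul, sub_eq_zero] at h4
      show j F * j z = aeval φ p * j v
      rw [h2, h4]
    have inj : ∀ x : FractionRing (MvPolynomial (Fin (n + 2)) K ⧸ Q), x ≠ 0 →
        Function.Injective (LinearMap.mulLeft K x) := fun x hx a b h => mul_left_cancel₀ hx h
    have e1 : Module.finrank K ((B (T + 2)).map (LinearMap.mulLeft K (aeval φ p))) =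
        hilb Q (T + 2) := by
      rw [← hBd]
      exact (Submodule.equivMapOfInjective _ (inj _ hne) _).finrank_eq.symm
    have e2 : Module.finrank K ((B T).map (LinearMap.mulLeft K (j F))) = hilb Q T := by
      rw [← hBd]
      exact (Submodule.equivMapOfInjective _ (inj _ hjF) _).finrank_eq.symm
    haveI := hBf T
    have e3 := Submodule.finrank_mono hsub
    rw [e1, e2] at e3
    have e4 := hQ (T + 2) (by omega)
    have e5 := hQ T le_rfl
    have e6 : (hilb Q (T + 2) : ℤ) ≤ hilb Q T := by exact_mod_cast e3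
    rw [e4, e5] at e6
    push_cast at e6
    have : (1 : ℤ) ≤ k := by exact_mod_cast hk
    nlinarith
  rcases hprim y with ⟨a, ha⟩ | hgen
  · refine ⟨a, ?_⟩
    have h1 := zero (X - C a) (by rw [map_sub, aeval_X, aeval_C, ha, sub_self])
    rw [map_sub, aeval_X, aeval_C, sub_eq_zero, hφ, div_eq_iff hjF] at h1
    rw [← hj, map_sub, map_mul, h1, sub_eq_zero]
    congr 1
  · exfalso
    have hyint : IsIntegral K y := IsIntegral.of_finite K y
    have h1 : aeval φ (minpoly K y) = 0 := zero _ (minpoly.aeval K y)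
    have h2 : minpoly K y = minpoly K φ :=
      minpoly.eq_of_irreducible_of_monic (minpoly.irreducible hyint) h1 (minpoly.monic hyint)
    have h3 : (minpoly K y).natDegree = 2 * k := by
      rw [← hE, ← Field.primitive_element_iff_minpoly_natDegree_eq, eq_top_iff]
      intro e _
      obtain ⟨p, hp⟩ := hgen e
      rw [← hp]
      have h4 : aeval y p ∈ Algebra.adjoin K {y} := by
        rw [Algebra.adjoin_singleton_eq_range_aeval]
        exact ⟨p, rfl⟩
      exact IntermediateField.algebra_adjoin_le_adjoin K {y} h4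
    have h4 : IsIntegral K φ := ⟨minpoly K y, minpoly.monic hyint, h1⟩
    have h5 : ∀ u ≥ T, 2 * k ∣ hilb Q u := by
      intro u hu
      rw [← hBd, ← h3, h2]
      apply dvd_finrank φ h4
      rintro p _ ⟨v, hv, rfl⟩
      obtain ⟨w, h6, h7, _⟩ := poly p u hu v hv
      exact ⟨w, h6, h7.symm⟩
    have h6 := hQ T le_rfl
    have h7 := hQ (T + 1) (by omega)
    obtain ⟨a, ha⟩ := h5 T le_rfl
    obtain ⟨b, hb⟩ := h5 (T + 1) (by omega)
    rw [ha] at h6
    rw [hb] at h7
    push_cast at h6 h7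
    have h8 : (1 : ℤ) ≤ k := by exact_mod_cast hk
    have h9 : (k : ℤ) * (2 * b - 2 * a - 1) = 0 := by linarith
    rcases mul_eq_zero.1 h9 with h10 | h10
    · omega
    · omega

end Pool.Agent.LDP.H46
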